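import Pool.Agent.helper32.PN.Spec

/-!
# Project PN (MP_405bd9_al), row BADV
-/

set_option autoImplicit false

namespace Pool.Agent.PN

open Module Polynomial Pool.Agent.helper27.PC

noncomputable section

/-- a filled place does not change when a ribbon is removed -/
theorem BADV_fill (m k J1 a : ℕ) (S : St)
    (hS : ∀ (s : Bool) (p : ℕ), p + k < m + J1 → (s, p) ∈ S) (y : Lab) (hy : y ∈ remv a S) :
    ∀ (s : Bool) (p : ℕ), p + k < m + J1 → (s, p) ∈ rem a S y := by
  intro s p hp
  unfold remv at hy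
  rw [Finset.mem_filter] at hy
  obtain ⟨_, hay, hdn⟩ := hy
  unfold rem
  refine Finset.mem_insert_of_mem (Finset.mem_erase.2 ⟨?_, hS s p hp⟩)
  intro he
  apply hdn
  have h2 : (dn a y) = (y.1, y.2 - a) := rfl
  rw [h2]
  apply hS
  have h3 : y.2 = p := by rw [← he]
  omega

/-- vanishing of low coefficients, for all states -/
theorem BADV_all (hB : BADB_stmt) (hK : K1_stmt) (t : Bool) (m k J1 : ℕ) (hJ : 4 * J1 ≤ k)
    (ρ : List ℕ) : ∀ (S : St), (∀ (s : Bool) (p : ℕ), p + k < m + J1 → (s, p) ∈ S) →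
      ∀ x < J1 * (k - J1), (U t m (ρ ++ List.replicate k 1) S).coeff x = 0 := by
  induction ρ with
  | nil =>
    intro S hS x hx
    rw [List.nil_append]
    by_cases hm : S ∈ ends k (vac m)
    · obtain ⟨_, h2⟩ := (hK t m k S).2 hm
      have h3 := hB t m k J1 S hm hJ hS
      have h4 : ((np k (vac m) S : ℕ) : ℤ[X]) = C ((np k (vac m) S : ℕ) : ℤ) := by simp
      rw [h2, h4, coeff_C_mul, coeff_X_pow]
      rw [if_neg (by omega)]
      simp
    · rw [(hK t m k S).1 hm]
      simp
  | cons a l ih =>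
    intro S hS x hx
    rw [List.cons_append]
    rw [show U t m (a :: (l ++ List.replicate k 1)) S = ∑ y ∈ remv a S,
      (-1) ^ cnt S (dn a y) a * wP t m (l ++ List.replicate k 1).sum a (dn a y) *
        U t m (l ++ List.replicate k 1) (rem a S y) from by rw [U]]
    rw [finsetSum_coeff]
    refine Finset.sum_eq_zero fun y hy => ?_
    have h1 := ih (rem a S y) (BADV_fill m k J1 a S hS y hy)
    unfold wP
    have h4 : ((-1 : ℤ[X]) ^ cnt S (dn a y) a) = C ((-1 : ℤ) ^ cnt S (dn a y) a) := by simp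
    rw [h4, mul_assoc, coeff_C_mul, coeff_X_pow_mul']
    split_ifs with hle
    · rw [h1 _ (lt_of_le_of_lt (Nat.sub_le _ _) hx)]
      simp
    · simp

theorem BADV (hB : BADB_stmt) (hK : K1_stmt) : BADV_stmt := by
  intro t m k J1 ρ S _ _ hJ hS x hx
  exact BADV_all hB hK t m k J1 hJ ρ S hS x hx

end

end Pool.Agent.PN
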